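import Pool.Agent.MP_2fc7fa_gt.I.Start
import Pool.Agent.Mg.F2fc7fa.Gcd7a22
import Pool.Agent.Mg.F2fc7fa.Gfb698a
import Pool.Agent.Mg.F2fc7fa.Gf5525e

/-! Paths of invariant forms give equivariant families; stacks of rescaled diffeomorphisms. -/

open scoped ContDiff ComplexConjugate Topology
open Set Complex Filter Metric

noncomputable section

namespace Pool.Agent.MP_2fc7fa_gt.N

theorem eqfam_I {f : W → W} {F F' : V → V} (hL : Lf f F F')
    {ac : Zp → Symp 1 → Symp 1} {om0 om1 : Symp 1} {J : Symp 1 × UI → V → Op}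
    (hJ : JFam F ac om0 om1 J) {γ : UI → Symp 1} (hγ : Continuous γ) (h0 : γ 0 = om0)
    (h1 : γ 1 = om1) (hinv : ∀ k s, ac k (γ s) = γ s) : Nonempty (EqFam f) := by
  let om : Unit × UI → Symp 1 := fun a => γ a.2
  have hom : Continuous om := hγ.comp continuous_snd
  obtain ⟨φ, C, Y, hS, hφJ, hCn⟩ := sys_Glue gromov_B frameS hL hJ hom (fun _ => h0) fun _ => h1
  obtain ⟨k1, k2, k3⟩ := keyS uniq_B lin _ φ C Y hS
  have tr : ∀ k (c : ℂ) v, c ≠ 0 → v ≠ 0 →
      ∀ s, Y ((), s) (rt k • c • v) (1, 1) = hat k (Y ((), s) v (1, c)) := by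
    intro k c v hc hv s
    have h : ∀ s, om ((), s) = ac k (om ((), s)) := fun s => (hinv k s).symm
    have := k1 () () (hatL k) c v (rt k • c • v) (hat_e0 k) (fun s x hx u => by
      simp only [hatL_apply]
      rw [hφJ _ _ (hat_ne k hx), hφJ _ _ hx]
      conv_lhs => rw [h]
      exact hJ.equiv k _ s x hx u) (hCn () () k h) hc hv (hat_vec k 0 _).symm s (1, 1)
    simpa only [mul_one, hatL_apply] using this
  have hR : Ray Y :=
    ⟨hS.fam, fun a v hv => ⟨⟨(hS.line a v hv).1.c1, (hS.line a v hv).1.hom⟩, (hS.line a v hv).2.1,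
      (hS.line a v hv).1.ne⟩, fun a v hv => congrArg Prod.fst (hS.line a v hv).2.2,
      fun a v c hv hc => by simpa only [rt_zero, one_smul, hat_zero] using tr 0 c v hc hv a.2⟩
  have h11 : ∀ c : ℂ, ((1, c) : W) ≠ 0 := fun c e => one_ne_zero (congrArg Prod.fst e)
  have hinj : ∀ a v (c c' : ℂ), v ≠ 0 → c ≠ 0 → c' ≠ 0 →
      pr (Y a (c • v) (1, 1)) = pr (Y a (c' • v) (1, 1)) → c = c' := by
    intro a v c c' hv hc hc' e
    rw [hR.par _ v c hv hc, hR.par _ v c' hv hc'] at e
    obtain ⟨b1, b2, b3⟩ := hR.emb a v hv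
    obtain ⟨d, hd, e⟩ := exists_smul_of_pr_eq (b3 _ (h11 c)) (b3 _ (h11 c')) e
    rw [← b1.2] at e
    have e' := b2.inj (h11 c) (smul_ne_zero hd (h11 c')) e
    have e1 : (1 : ℂ) = d * 1 := congrArg Prod.fst e'
    have e2 : c = d * c' := congrArg Prod.snd e'
    rw [e2, ← mul_one d, ← e1, one_mul]
  have heq : ∀ a v k, v ≠ 0 → pr (Y a (rt k • v) (1, 1)) = actM k (pr (Y a v (1, 1))) := by
    intro a v k hv
    rw [← pr_hat_Glue, ← tr k 1 v one_ne_zero hv, one_smul]
  have hpt : ∀ a v, v ≠ 0 → aff (pr (Y a v (1, 1))) ≠ 0 ∧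
      pr (Y a v (1, 1)) = pt (aff (pr (Y a v (1, 1)))) := by
    intro a v hv
    obtain ⟨y, hy, e⟩ := exists_pt ((hR.emb a v hv).2.2 _ (h11 1)) fun h =>
      absurd (rt_injective (hinj a v _ _ hv (rt_ne_zero 1) (rt_ne_zero 0)
        (by rw [heq a v 1 hv, h, rt_zero, one_smul]))) (by decide)
    rw [e, aff_pt]
    exact ⟨hy, rfl⟩
  have horb : ∀ a v, v ≠ 0 → ∀ k,
      pr (Y a (rt k • v) (1, 1)) = pt (rt k • aff (pr (Y a v (1, 1)))) := fun a v hv k => by
    rw [heq a v k hv, ← actM_pt, ← (hpt a v hv).2]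
  refine ⟨{ h := fun s v => aff (pr (Y ((), projIcc 0 1 zero_le_one s) v (1, 1)))
            ne := fun s _ v hv => (hpt _ v hv).1
            cont := ?_
            inj := fun s _ v c c' hv hc hc' e => hinj ((), projIcc 0 1 zero_le_one s) v c c' hv hc hc' ?_
            equiv := fun s _ v k hv => by rw [horb _ v hv, aff_pt]
            start := fun v hv => ?_
            stop := ?_
            near0 := fun r hr => ?_
            nearInf := fun r => ?_ }⟩
  · rw [continuousOn_iff_continuous_domRestrict]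
    have c0 : Continuous fun q : (Icc (0 : ℝ) 1 ×ˢ ({0}ᶜ : Set W) : Set (ℝ × W)) =>
        (((((), projIcc 0 1 zero_le_one q.1.1), ⟨q.1.2, q.2.2⟩), (1, 1)) :
          ((Unit × UI) × ({0}ᶜ : Set W)) × W) :=
      ((continuous_const.prodMk (continuous_projIcc.comp (by fun_prop))).prodMk
        (by fun_prop)).prodMk continuous_const
    have c1 := hS.fam.jc.comp_continuous c0 fun _ => ⟨mem_univ _, h11 1⟩
    have c2 := continuousOn_pr_Glue.comp_continuous c1
      fun q => (hR.emb _ _ q.2.2).2.2 _ (h11 1)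
    refine continuous_iff_continuousAt.2 fun q => ContinuousAt.comp (g := aff) ?_ c2.continuousAt
    have := continuousAt_aff (aff (pr (Y ((), projIcc 0 1 zero_le_one q.1.1) q.1.2 (1, 1))))
    rwa [← (hpt _ _ q.2.2).2] at this
  · rw [(hpt _ _ (smul_ne_zero hc hv)).2, (hpt _ _ (smul_ne_zero hc' hv)).2]
    exact congrArg pt e
  · rw [projIcc_left]
    refine (congrArg (fun x => aff (pr x)) (k2 _ f F F' hL (fun y hy u => ?_) v hv)).trans
      (aff_pt _)
    rw [hφJ _ _ (hL.ne hy)]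
    have e : om ((), 0) = om0 := h0
    rw [e]
    exact hJ.start y hy u
  · obtain ⟨L, -, hL2⟩ := k3 ()
    refine ⟨L, fun v hv => ?_⟩
    rw [projIcc_right]
    exact (congrArg (fun x => aff (pr x)) (hL2 v hv)).trans (aff_pt _)
  · obtain ⟨τ, hτ, h⟩ := near0S chord _ Y hR r hr
    exact ⟨τ, hτ, fun s _ a l ha h1 h2 => h _ a _ _ l ha h1 h2 (horb _ a ha)
      (hpt _ _ (smul_ne_zero (ofReal_ne_zero.2 (by linarith)) ha)).2⟩
  · obtain ⟨R, h⟩ := nearInfS chord _ Y hR r
    exact ⟨R, fun s _ b l hb h1 h2 h3 => h _ b _ _ l hb h1 h2 h3 (horb _ b hb)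
      (hpt _ _ (smul_ne_zero (ofReal_ne_zero.2 h2.ne') hb)).2⟩

/-! ### Stacks -/

theorem HDiff.comp {F F' G G' : V → V} (h : HDiff F F') (h' : HDiff G G') :
    HDiff (F ∘ G) (G' ∘ F') :=
  ⟨h.smooth.comp h'.smooth fun _ hx => h'.ne hx,
    h'.smooth'.comp h.smooth' fun _ hx => h.symm.ne hx,
    fun x => by simp only [Function.comp_apply, h.left, h'.left],
    fun x => by simp only [Function.comp_apply, h.right, h'.right],
    fun c x => by simp only [Function.comp_apply, h.hom, h'.hom]⟩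

theorem Lf.comp {f g : W → W} {F F' G G' : V → V} (h : Lf f F F') (h' : Lf g G G') :
    Lf (f ∘ g) (F ∘ G) (G' ∘ F') :=
  ⟨h.toHDiff.comp h'.toHDiff, fun k x => by simp only [Function.comp_apply, h.equiv, h'.equiv],
    fun y => by simp only [Function.comp_apply, h.aff, h'.aff],
    (h.near.and h'.near).mono fun x hx => by rw [Function.comp_apply, hx.2, hx.1],
    (h.near'.and h'.near').mono fun x hx => by rw [Function.comp_apply, hx.1, hx.2]⟩

theorem lf_id : Lf id id id :=
  ⟨⟨contDiffOn_id, contDiffOn_id, fun _ => rfl, fun _ => rfl, fun _ _ => rfl⟩, fun _ _ => rfl,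
    fun _ => rfl, .of_forall fun _ => rfl, .of_forall fun _ => rfl⟩

/-- Scaling of the last two coordinates. -/
def dgI (a : ℝ) (x : V) : V := ![x 0, Real.exp a * x 1, Real.exp a * x 2]

theorem dgI_neg (a : ℝ) (x : V) : dgI (-a) (dgI a x) = x := by
  have h : (Real.exp (-a) : ℂ) * Real.exp a = 1 := by
    rw [← ofReal_mul, ← Real.exp_add, neg_add_cancel, Real.exp_zero, ofReal_one]
  ext i
  fin_cases i
  · rfl
  · exact (mul_assoc _ _ _).symm.trans (by rw [h, one_mul]; rfl)
  · exact (mul_assoc _ _ _).symm.trans (by rw [h, one_mul]; rfl)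

theorem contDiff_dgI (a : ℝ) : ContDiff ℝ ∞ (dgI a) := by
  refine contDiff_pi.2 fun i => ?_
  fin_cases i <;> simp only [dgI] <;> simp <;> fun_prop

theorem hdiff_dgI (a : ℝ) : HDiff (dgI a) (dgI (-a)) :=
  ⟨(contDiff_dgI a).contDiffOn, (contDiff_dgI _).contDiffOn, dgI_neg a,
    fun x => by simpa only [neg_neg] using dgI_neg (-a) x, fun c x => by
      ext i
      fin_cases i <;> simp [dgI, mul_left_comm]⟩

theorem dgI_hat (a : ℝ) (k : Zp) (x : V) : dgI a (hat k x) = hat k (dgI a x) := by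
  ext i
  fin_cases i <;> simp [dgI, hat, mul_left_comm]

theorem dgI_vec (a : ℝ) (c : ℂ) (y : W) : dgI a (vec c y) = vec c (Real.exp a • y) := by
  ext i
  fin_cases i <;> simp [dgI, vec]

theorem Lf.conj {f : W → W} {F F' : V → V} (h : Lf f F F') (a : ℝ) :
    Lf (fun z => Real.exp a • f (Real.exp (-a) • z)) (dgI a ∘ F ∘ dgI (-a))
      (dgI a ∘ F' ∘ dgI (-a)) := by
  have t : Tendsto (dgI (-a)) (𝓝 e0) (𝓝 e0) := by
    have := (contDiff_dgI (-a)).continuous.tendsto e0
    rwa [e0, dgI_vec, smul_zero] at this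
  exact ⟨(hdiff_dgI a).comp (h.toHDiff.comp (hdiff_dgI a).symm),
    fun k x => by simp only [Function.comp_apply, h.equiv, dgI_hat],
    fun y => by simp only [Function.comp_apply, h.aff, dgI_vec],
    (t.eventually h.near).mono fun x hx => by
      rw [Function.comp_apply, Function.comp_apply, hx, (hdiff_dgI a).right],
    (t.eventually h.near').mono fun x hx => by
      rw [Function.comp_apply, Function.comp_apply, hx, (hdiff_dgI a).right]⟩

/-- The copies with numbers `m, ..., m + r - 1`. -/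
def gI (f : W → W) (m : ℕ) : ℕ → W → W
  | 0 => id
  | r + 1 => gI f m r ∘ fun z => Real.exp (6 * (m + r : ℕ)) • f (Real.exp (-(6 * (m + r : ℕ))) • z)

def GI (F : V → V) (m : ℕ) : ℕ → V → V
  | 0 => id
  | r + 1 => GI F m r ∘ dgI (6 * (m + r : ℕ)) ∘ F ∘ dgI (-(6 * (m + r : ℕ)))

def GI' (F' : V → V) (m : ℕ) : ℕ → V → V
  | 0 => id
  | r + 1 => (dgI (6 * (m + r : ℕ)) ∘ F' ∘ dgI (-(6 * (m + r : ℕ)))) ∘ GI' F' m r

theorem lf_gI {f : W → W} {F F' : V → V} (h : Lf f F F') (m r : ℕ) :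
    Lf (gI f m r) (GI F m r) (GI' F' m r) := by
  induction r with
  | zero => exact lf_id
  | succ r ih => exact ih.comp (h.conj _)

theorem GI'_add (F' : V → V) (m r : ℕ) : GI' F' 0 (m + r) = GI' F' m r ∘ GI' F' 0 m := by
  induction r with
  | zero => rfl
  | succ r ih => rw [← add_assoc, GI', GI', ih, zero_add, Function.comp_assoc]; rfl

theorem stack_gI {f : W → W} (hf : Sol f) (m r : ℕ) :
    Stack f (gI f m r) (Finset.Ico m (m + r)) := by
  induction r with
  | zero => exact ⟨continuous_id, Function.injective_id, fun j hj => by simp at hj, fun _ _ => rfl⟩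
  | succ r ih =>
    have key : ∀ z, ¬ Sh (m + r) z →
        Real.exp (6 * (m + r : ℕ)) • f (Real.exp (-(6 * (m + r : ℕ))) • z) = z := fun z hz => by
      rw [hf.supp _ (by rwa [Sh, not_and_or, not_lt, not_lt] at hz), exp_smul_neg_I]
    have hc := hf.cont
    refine ⟨ih.cont.comp (by fun_prop),
      ih.inj.comp ((smul_right_injective W (Real.exp_ne_zero _)).comp
        (hf.inj.comp (smul_right_injective W (Real.exp_ne_zero _)))), fun j hj z hz => ?_,
      fun z hz => ?_⟩
    · rw [gI, Function.comp_apply]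
      rcases eq_or_ne j (m + r) with rfl | h
      · refine ih.out _ fun i hi h => ?_
        have := h.eq ((hf.sh' _ z).2 hz)
        have := Finset.mem_Ico.1 hi
        omega
      · rw [key z fun h' => h (hz.eq h')]
        have := Finset.mem_Ico.1 hj
        exact ih.inn j (Finset.mem_Ico.2 (by omega)) z hz
    · rw [gI, Function.comp_apply, key z (hz _ (Finset.mem_Ico.2 (by omega)))]
      refine ih.out z fun j hj => hz j ?_
      have := Finset.mem_Ico.1 hj
      exact Finset.mem_Ico.2 (by omega)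

end Pool.Agent.MP_2fc7fa_gt.N
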