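import Pool.Agent.MP_2fc7fa_gt.I.Stokes

/-! The integral count of a stack of rescaled copies of one diffeomorphism. -/

open scoped ComplexConjugate Topology
open Set Complex Filter

noncomputable section

namespace Pool.Agent.MP_2fc7fa_gt.N

/-- A cochain that is supported at finitely many points, each of which contributes `s`. -/
theorem local_sum {m : ℕ} {c : Co (Fin m → ℝ) ℤ} (hc : Dg m c) (Z : Finset (Fin m → ℝ))
    (h0 : ∀ x ∈ cubeF m, x ∉ Z → LZ c (𝓝[cubeF m] x)) (s : ℤ)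
    (hloc : ∀ z ∈ Z, ∀ c' : Co (Fin m → ℝ) ℤ, Dg m c' → LZ (c' - c) (𝓝 z) →
      (∀ x ∈ cubeF m, x ≠ z → LZ c' (𝓝[cubeF m] x)) →
      ∀ᶠ M in atTop, II M m (pb (res m) c') = s) :
    ∀ᶠ M in atTop, II M m (pb (res m) c) = Z.card * s := by
  classical
  obtain ⟨U, hU, hd⟩ := Z.finite_toSet.t2_separation
  let C : (Fin m → ℝ) → Co (Fin m → ℝ) ℤ := fun z x => if x 0 ∈ U z then c x else 0
  have hUn : ∀ z, U z ∈ 𝓝 z := fun z => (hU z).2.mem_nhds (hU z).1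
  have a1 : ∀ z (F : Filter (Fin m → ℝ)), LZ c F → LZ (C z) F := fun z F ⟨O, hO, h⟩ =>
    ⟨O, hO, fun x hx => by simp only [C, h x hx, ite_self]⟩
  have a2 : ∀ z ∈ Z, ∀ z' ∈ Z, z ≠ z' → ∀ x : ℕ → Fin m → ℝ, x 0 ∈ U z → C z' x = 0 :=
    fun z hz z' hz' h x hx => if_neg fun h' => Set.disjoint_left.1 (hd hz hz' h) hx h'
  have a3 : ∀ z ∈ Z, ∀ᶠ M in atTop, II M m (pb (res m) (C z)) = s := fun z hz => by
    refine hloc z hz _ (fun x y h => ?_) ⟨U z, hUn z, fun x hx => ?_⟩ fun x hx h => ?_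
    · simp only [C, h 0 (Nat.zero_le _), hc x y h]
    · simp only [C, Pi.sub_apply, if_pos (hx 0), sub_self]
    · by_cases hx' : x ∈ Z
      · exact ⟨U x, mem_nhdsWithin_of_mem_nhds (hUn x), fun y hy => a2 x hx' z hz h y (hy 0)⟩
      · exact a1 z _ (h0 x hx hx')
  have a4 : ∀ᶠ M in atTop, II M m (pb (res m) (c - ∑ z ∈ Z, C z)) = 0 := by
    refine II_lz _ fun q hq => LZ.pb ?_ (tendsto_res m q)
    by_cases hx : res m q ∈ Z
    · refine ⟨U (res m q), mem_nhdsWithin_of_mem_nhds (hUn _), fun y hy => ?_⟩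
      rw [Pi.sub_apply, Finset.sum_apply, Finset.sum_eq_single_of_mem _ hx
        fun z hz h => a2 _ hx z hz h.symm y (hy 0)]
      simp only [C, if_pos (hy 0), sub_self]
    · obtain ⟨O, hO, h⟩ := h0 _ (res_mem_cubeF m hq) hx
      refine ⟨O, hO, fun y hy => ?_⟩
      simp only [Pi.sub_apply, Finset.sum_apply, C, h y hy, ite_self, Finset.sum_const_zero,
        sub_self]
  filter_upwards [(Finset.eventually_all _).2 a3, a4] with M b1 b2
  have e : pb (res m) (c - ∑ z ∈ Z, C z) = pb (res m) c - ∑ z ∈ Z, pb (res m) (C z) := by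
    funext x
    simp only [pb, Pi.sub_apply, Finset.sum_apply]
  rw [e, II_sub, II_sum, Finset.sum_congr rfl b1, sub_eq_zero] at b2
  rw [b2, Finset.sum_const, nsmul_eq_mul]

/-- The shell number `j`. -/
def Sh (j : ℕ) (z : W) : Prop :=
  1 / 100 < nsq (Real.exp (-(6 * j)) • z) ∧ nsq (Real.exp (-(6 * j)) • z) < 1000

/-- `g` is a rescaled copy of `f` on the shells with numbers in `S`, the identity elsewhere. -/
structure Stack (f g : W → W) (S : Finset ℕ) : Prop where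
  cont : Continuous g
  inj : Function.Injective g
  inn : ∀ j ∈ S, ∀ z, Sh j z → g z = Real.exp (6 * j) • f (Real.exp (-(6 * j)) • z)
  out : ∀ z, (∀ j ∈ S, ¬ Sh j z) → g z = z

theorem exp_neg_smul_I (a : ℝ) (z : W) : Real.exp (-a) • Real.exp a • z = z := by
  rw [smul_smul, ← Real.exp_add, neg_add_cancel, Real.exp_zero, one_smul]

theorem exp_smul_neg_I (a : ℝ) (z : W) : Real.exp a • Real.exp (-a) • z = z := by
  rw [smul_smul, ← Real.exp_add, add_neg_cancel, Real.exp_zero, one_smul]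

theorem nsq_le_I {a b : ℝ} (h : a ≤ b) (z : W) :
    nsq (Real.exp a • z) ≤ nsq (Real.exp b • z) := by
  rw [nsq_exp_CSt, nsq_exp_CSt]
  exact mul_le_mul_of_nonneg_right
    (pow_le_pow_left₀ (Real.exp_pos a).le (Real.exp_le_exp.2 h) 2) (nsq_nonneg z)

theorem Sh.eq {j j' : ℕ} {z : W} (h : Sh j z) (h' : Sh j' z) : j = j' := by
  have key : ∀ {j j' : ℕ}, Sh j z → Sh j' z → ¬ j < j' := fun {j j'} h h' hj => by
    have h1 : (j : ℝ) + 1 ≤ j' := by exact_mod_cast hj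
    have h2 := nsq_le_I (show 6 + -(6 * (j' : ℝ)) ≤ -(6 * j) by linarith) z
    rw [Real.exp_add, mul_smul, nsq_exp_CSt] at h2
    have h3 : (2.7 : ℝ) ^ 6 ≤ Real.exp 6 := by
      rw [show (6 : ℝ) = (6 : ℕ) * 1 by norm_num, Real.exp_nat_mul]
      exact pow_le_pow_left₀ (by norm_num) (by linarith [Real.exp_one_gt_d9]) 6
    have h4 : ((2.7 : ℝ) ^ 6) ^ 2 ≤ Real.exp 6 ^ 2 := pow_le_pow_left₀ (by norm_num) h3 2
    nlinarith [h.2, h'.1]
  exact le_antisymm (not_lt.1 (key h' h)) (not_lt.1 (key h h'))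

theorem Sh.low {j : ℕ} {z : W} (h : Sh j z) : 1 / 100 < nsq z := by
  have h2 := nsq_le_I (show -(6 * (j : ℝ)) ≤ 0 by simp) z
  rw [Real.exp_zero, one_smul] at h2
  exact h.1.trans_le h2

theorem Sh.high {j n : ℕ} {z : W} (h : Sh j z) (hn : j ≤ n) :
    nsq (Real.exp (-(6 * n)) • z) < 1000 := by
  have h1 : (j : ℝ) ≤ n := by exact_mod_cast hn
  exact (nsq_le_I (by linarith) z).trans_lt h.2

theorem Sh.congr {j : ℕ} {z z' : W} (h : Sh j z) (e : nsq z' = nsq z) : Sh j z' := by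
  simpa only [Sh, nsq_exp_CSt, e] using h

theorem isOpen_Sh (j : ℕ) : IsOpen {z | Sh j z} := by
  have h : Continuous fun z : W => nsq (Real.exp (-(6 * (j : ℝ))) • z) :=
    continuous_nsq.comp (continuous_const_smul _)
  exact (isOpen_lt continuous_const h).inter (isOpen_lt h continuous_const)

theorem Sol.sh {f : W → W} (hf : Sol f) (z : W) :
    1 / 100 < nsq (f z) ∧ nsq (f z) < 1000 ↔ 1 / 100 < nsq z ∧ nsq z < 1000 := by
  have key : ∀ y, ¬ (1 / 100 < nsq y ∧ nsq y < 1000) → f y = y := fun y hy =>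
    hf.supp y (by rwa [not_and_or, not_lt, not_lt] at hy)
  constructor
  · intro h
    by_contra h'
    exact h' (key z h' ▸ h)
  · intro h
    by_contra h'
    exact h' ((hf.inj (key _ h')).symm ▸ h)

theorem Sol.sh' {f : W → W} (hf : Sol f) (j : ℕ) (z : W) :
    Sh j (Real.exp (6 * j) • f (Real.exp (-(6 * j)) • z)) ↔ Sh j z := by
  rw [Sh, exp_neg_smul_I, hf.sh]
  rfl

theorem Stack.fix {f g : W → W} {S : Finset ℕ} (hg : Stack f g S) {z : W}
    (h : ∀ j ∈ S, ¬ Sh j (g z)) : g z = z := hg.inj (hg.out _ h)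

theorem Stack.sh {f g : W → W} {S : Finset ℕ} (hf : Sol f) (hg : Stack f g S) {j : ℕ} {z : W}
    (h : Sh j (g z)) : Sh j z := by
  by_cases h1 : ∃ i ∈ S, Sh i z
  · obtain ⟨i, hi, h1⟩ := h1
    have h2 := (hf.sh' i z).2 h1
    rw [← hg.inn i hi z h1] at h2
    exact h2.eq h ▸ h1
  · push Not at h1
    rwa [hg.out z h1] at h

theorem vv_eq_I {z₀ : W} (h1 : z₀.1 ≠ 0) (h2 : z₀.2 ≠ 0) {E : ℝ} (hE : 0 < E)
    {k k' : Zp} {p : Fin 6 → ℝ} (hp : p ∈ cubeF 6) (h : E • vv z₀ k p = rt k' • z₀) :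
    k = 0 ∧ p 0 = 1 / 2 ∧ p 1 = 1 / 2 ∧ p 2 = 1 / 2 ∧ E = 1 := by
  have a1 : ((E * (2 * (1 - p 0)) : ℝ) : ℂ) * ee (p 1 - 1 / 2) = rt k' := by
    refine mul_right_cancel₀ h1 ?_
    have := congrArg Prod.fst h
    simp only [vv, Prod.smul_fst, smul_eq_mul, real_smul] at this
    rw [← this, ofReal_mul E]
    ring
  have a2 : ((E * (2 * p 0) : ℝ) : ℂ) * (rt k * ee (p 2 - 1 / 2)) = rt k' := by
    refine mul_right_cancel₀ h2 ?_
    have := congrArg Prod.snd h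
    simp only [vv, Prod.smul_snd, smul_eq_mul, real_smul] at this
    rw [← this, ofReal_mul E]
    ring
  have b1 : E * (2 * (1 - p 0)) = 1 := by
    have := congrArg norm a1
    rwa [norm_mul, norm_ee, norm_rt, mul_one, norm_real,
      Real.norm_of_nonneg (mul_nonneg hE.le (by linarith [(hp 0).2]))] at this
  have b2 : E * (2 * p 0) = 1 := by
    have := congrArg norm a2
    rwa [norm_mul, norm_mul, norm_ee, norm_rt, norm_rt, mul_one, mul_one, norm_real,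
      Real.norm_of_nonneg (mul_nonneg hE.le (by linarith [(hp 0).1]))] at this
  rw [b1, ofReal_one, one_mul] at a1
  rw [b2, ofReal_one, one_mul] at a2
  have hab : ∀ j, |p j - 1 / 2| < 1 := fun j => by
    rw [abs_lt]
    constructor <;> linarith [(hp j).1, (hp j).2]
  obtain ⟨c1, rfl⟩ := ee_eq_rt (hab 1) a1
  have a3 : ee (p 2 - 1 / 2) = rt (-k) :=
    mul_left_cancel₀ (rt_ne_zero k) (by rw [a2, ← rt_add, add_neg_cancel])
  obtain ⟨c2, c3⟩ := ee_eq_rt (hab 2) a3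
  have hE1 : E = 1 := by linarith
  rw [hE1] at b2
  exact ⟨neg_eq_zero.1 c3, by linarith, by linarith, by linarith, hE1⟩

/-- Translation in the direction of the first height. -/
theorem aa_add_I (z₀ : W) (T δ x : ℝ) (k : Zp) (p : Fin 6 → ℝ) (i : Fin 3) :
    aa z₀ T δ k (p + Pi.single 3 x) i = Real.exp (2 * T * x) • aa z₀ T δ k p i := by
  have e1 : vv z₀ k (p + Pi.single 3 x) = vv z₀ k p := by simp [vv]
  have e2 : hh T δ (p + Pi.single 3 x) i = 2 * T * x + hh T δ p i := by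
    fin_cases i <;> simp [hh] <;> ring
  rw [aa, aa, e1, e2, Real.exp_add, mul_smul]

/-- The six equations. -/
def PsiI (x' : Fin 3 → W) : ℂ × ℝ × ℂ × ℝ :=
  (det2 (x' 0) (x' 2), nsq (x' 2) - nsq (x' 0), det2 (x' 1) (x' 2), nsq (x' 2) - nsq (x' 1))

theorem continuous_PsiI : Continuous PsiI := by
  have a : ∀ i j, Continuous fun x' : Fin 3 → W => det2 (x' i) (x' j) := fun i j =>
    continuous_det2.comp (f := fun x' : Fin 3 → W => (x' i, x' j))
      ((continuous_apply i).prodMk (continuous_apply j))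
  have b : ∀ i, Continuous fun x' : Fin 3 → W => nsq (x' i) := fun i =>
    continuous_nsq.comp (continuous_apply i)
  exact (a 0 2).prodMk (((b 2).sub (b 0)).prodMk ((a 1 2).prodMk ((b 2).sub (b 1))))

theorem PsiI_smul (a : ℝ) (x : Fin 3 → W) :
    PsiI (fun i => Real.exp a • x i) = Real.exp a ^ 2 • PsiI x := by
  simp only [PsiI, nsq_exp_CSt, Prod.smul_mk, smul_eq_mul, det2, Prod.smul_fst, Prod.smul_snd,
    real_smul, Prod.mk.injEq]
  push_cast
  refine ⟨by ring, by ring, by ring, by ring⟩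

theorem start_I {f g : W → W} (hf : Sol f) {S : Finset ℕ} (hg : Stack f g S) {n : ℕ}
    (hn : ∀ j ∈ S, j ≤ n) : ∃ z₀ : W, z₀.1 ≠ 0 ∧ z₀.2 ≠ 0 ∧ ∃ T₁ δ₁ : ℝ, 0 < T₁ ∧
    0 < δ₁ ∧ ∀ T δ : ℝ, T₁ ≤ T → 0 < δ → δ ≤ δ₁ → ∃ s : ℤ, (s = 1 ∨ s = -1) ∧ ∀ᶠ M in atTop,
      ∑ k : Zp, II M 6 (pb (res 6) (omI (Real.exp (-(6 * n))) g z₀ T δ k)) = S.card * s := by
  classical
  obtain ⟨z₀, α₀, β₀, h1, h2, -, -, -, hα, hβ, ⟨D₁, hD₁, D₂, hD₂, e₁, e₂⟩, huniq, L, hL, hLi⟩ :=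
    hf.sol
  have hn0 : (0 : ℝ) ≤ n := Nat.cast_nonneg n
  refine ⟨z₀, h1, h2, β₀ + 6 * n, (β₀ - α₀) / 2, by linarith, by linarith,
    fun T δ hT hδ hδ' => ?_⟩
  set c := Real.exp (-(6 * (n : ℝ))) with hc
  have hT0 : 0 < T := by linarith
  have hT2 : 0 < 2 * T := by linarith
  have hz₀ : z₀ ≠ 0 := fun h => h1 (by rw [h]; rfl)
  obtain ⟨p₀, q0, q1, q2, q3, q4, q5⟩ : ∃ p₀ : Fin 6 → ℝ, p₀ 0 = 1 / 2 ∧ p₀ 1 = 1 / 2 ∧
      p₀ 2 = 1 / 2 ∧ p₀ 3 = 1 / 2 ∧ 2 * T * p₀ 4 = α₀ ∧ 2 * T * p₀ 5 = β₀ - α₀ - δ :=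
    ⟨![1 / 2, 1 / 2, 1 / 2, 1 / 2, α₀ / (2 * T), (β₀ - α₀ - δ) / (2 * T)], rfl, rfl, rfl, rfl,
      mul_div_cancel₀ _ hT2.ne', mul_div_cancel₀ _ hT2.ne'⟩
  obtain ⟨P, hP⟩ : ∃ P : ℕ → Fin 6 → ℝ, ∀ j, P j = p₀ + Pi.single 3 (6 * j / (2 * T)) :=
    ⟨_, fun _ => rfl⟩
  have hx6 : ∀ j : ℕ, 2 * T * (6 * j / (2 * T)) = 6 * j := fun j => mul_div_cancel₀ _ hT2.ne'
  have P3 : ∀ j, 2 * T * P j 3 = T + 6 * j := fun j => by
    rw [hP, Pi.add_apply, Pi.single_eq_same, mul_add, hx6, q3]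
    ring
  have Pn : ∀ j i, i ≠ 3 → P j i = p₀ i := fun j i hi => by
    rw [hP, Pi.add_apply, Pi.single_eq_of_ne hi, add_zero]
  have hp₀ : ∀ j ∈ S, ∀ i, P j i ∈ Ioo (0 : ℝ) 1 := by
    have k : ∀ x y : ℝ, 2 * T * x = y → 0 < y → y < 2 * T → x ∈ Ioo (0 : ℝ) 1 := fun x y e a b =>
      ⟨pos_of_mul_pos_left (show 0 < x * (2 * T) by linarith) hT2.le,
        lt_of_mul_lt_mul_left (by linarith) hT2.le⟩
    intro j hj i
    have hj0 : (0 : ℝ) ≤ j := Nat.cast_nonneg j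
    have hjn : (j : ℝ) ≤ n := by exact_mod_cast hn j hj
    fin_cases i
    · exact (show P j 0 ∈ Ioo (0 : ℝ) 1 by rw [Pn j 0 (by decide), q0]; norm_num)
    · exact (show P j 1 ∈ Ioo (0 : ℝ) 1 by rw [Pn j 1 (by decide), q1]; norm_num)
    · exact (show P j 2 ∈ Ioo (0 : ℝ) 1 by rw [Pn j 2 (by decide), q2]; norm_num)
    · exact k _ _ (P3 j) (by linarith) (by linarith)
    · exact (show P j 4 ∈ Ioo (0 : ℝ) 1 by
        rw [Pn j 4 (by decide)]; exact k _ _ q4 hα (by linarith))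
    · exact (show P j 5 ∈ Ioo (0 : ℝ) 1 by
        rw [Pn j 5 (by decide)]; exact k _ _ q5 (by linarith) (by linarith))
  have hlow : ∀ y, nsq (g y) ≤ 1 / 100 → g y = y := fun y hy =>
    hg.fix fun j _ h => absurd h.low hy.not_gt
  have hhigh : ∀ y, 1000 ≤ nsq (c • g y) → g y = y := fun y hy =>
    hg.fix fun j hj h => absurd (h.high (hn j hj)) hy.not_gt
  have hg0 : ∀ x, x ≠ 0 → g x ≠ 0 := fun x hx h =>
    hx ((hlow x (by rw [h]; norm_num [nsq])).symm.trans h)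
  have hX : ∀ k, Continuous fun p i => g (aa z₀ T δ k p i) := fun k =>
    continuous_pi fun i => hg.cont.comp (continuous_aa T δ k i)
  have hlz : ∀ k, ∀ p ∈ cubeF 6, k ≠ 0 ∨ p ∉ S.image P →
      LZ (omI c g z₀ T δ k) (𝓝[cubeF 6] p) := by
    intro k p hp hne
    have ha := aa_ne_zero h1 h2 T δ k p
    refine (yI_lz c (x := fun i => g (aa z₀ T δ k p i)) (fun i => hg0 _ (ha i)) ?_).pb
      (tendsto_comap_iff.2 (((hX k).tendsto p).mono_left nhdsWithin_le_nhds))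
    rintro ⟨c1, c2⟩
    simp only [aa_one_CSt, aa_two_CSt] at c1 c2
    have g0 : 0 ≤ 2 * T * p 4 := mul_nonneg hT2.le (hp 4).1
    have g1 : 2 * T * p 4 < 2 * T * p 4 + δ + 2 * T * p 5 := by
      have := mul_nonneg hT2.le (hp 5).1
      linarith
    have ha0 := ha 0
    have e0 : aa z₀ T δ k p 0 = Real.exp (-T + 2 * T * p 3) • vv z₀ k p := rfl
    generalize aa z₀ T δ k p 0 = z at c1 c2 ha0 e0
    generalize hα' : 2 * T * p 4 = α at c1 c2 g0 g1
    generalize hβ' : α + δ + 2 * T * p 5 = β at c1 c2 g1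
    have l1 : nsq (g (Real.exp β • z)) ≤ nsq (g z) := CC_le (k1_mem _) c1
    have l2 : nsq (g (Real.exp β • z)) ≤ nsq (g (Real.exp α • z)) := CC_le (kc_mem c _) c2
    have lt0 : nsq z < nsq (Real.exp β • z) := by
      simpa only [Real.exp_zero, one_smul] using nsq_lt_CSt (g0.trans_lt g1) ha0
    have b1 : 1 / 100 < nsq (g z) := by
      by_contra! h
      rw [hlow _ (l1.trans h), hlow _ h] at l1
      exact absurd l1 lt0.not_ge
    have b2 : nsq (c • g (Real.exp β • z)) < 1000 := by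
      by_contra! h
      have h' : 1000 ≤ nsq (c • g (Real.exp α • z)) := by
        rw [hc, nsq_exp_CSt] at h ⊢
        exact h.trans (mul_le_mul_of_nonneg_left l2 (by positivity))
      rw [hhigh _ h, hhigh _ h'] at l2
      exact absurd l2 (nsq_lt_CSt g1 ha0).not_ge
    obtain ⟨E₁, hE₁, r1⟩ := CC_arc (k1_one (by dsimp only; linarith)) (hg0 _ ha0) c1
    obtain ⟨E₂, hE₂, r2⟩ := CC_arc (kc_one (by dsimp only; linarith))
      (hg0 _ (smul_ne_zero (Real.exp_pos _).ne' ha0)) c2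
    dsimp only at r1 r2
    have n1 : nsq (g z) = nsq (g (Real.exp β • z)) := by
      rw [r1, nsq_smul, norm_ee, one_pow, one_mul]
    have n2 : nsq (g (Real.exp α • z)) = nsq (g (Real.exp β • z)) := by
      rw [r2, nsq_smul, norm_ee, one_pow, one_mul]
    obtain ⟨j, hj, sj⟩ : ∃ j ∈ S, Sh j (g (Real.exp β • z)) := by
      by_contra! h
      have h3 : g z = z := hg.fix fun j hj h' => h j hj (h'.congr n1.symm)
      rw [hg.fix h, h3] at n1
      exact lt0.ne n1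
    rw [hg.inn j hj _ (hg.sh hf sj), hg.inn j hj _ (hg.sh hf (sj.congr n1)), smul_comm (ee E₁),
      smul_comm _ (Real.exp β)] at r1
    rw [hg.inn j hj _ (hg.sh hf sj), hg.inn j hj _ (hg.sh hf (sj.congr n2)), smul_comm (ee E₂),
      smul_comm _ (Real.exp β), smul_comm _ (Real.exp α)] at r2
    obtain ⟨k', s1, s2, s3⟩ := huniq _ _ _ (smul_ne_zero (Real.exp_ne_zero _) ha0) g0 g1 E₁
      (by norm_num at hE₁ ⊢; exact hE₁) E₂ (by norm_num at hE₂ ⊢; exact hE₂)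
      (smul_right_injective W (Real.exp_ne_zero _) r1)
      (smul_right_injective W (Real.exp_ne_zero _) r2)
    rw [e0, smul_smul, ← Real.exp_add] at s1
    obtain ⟨t0, t1, t2, t3, t4⟩ := vv_eq_I h1 h2 (Real.exp_pos _) hp s1
    rw [Real.exp_eq_one_iff] at t4
    refine hne.elim (fun h => h t0) fun h => h (Finset.mem_image.2 ⟨j, hj, funext fun i => ?_⟩)
    fin_cases i
    · exact (Pn j 0 (by decide)).trans (q0.trans t1.symm)
    · exact (Pn j 1 (by decide)).trans (q1.trans t2.symm)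
    · exact (Pn j 2 (by decide)).trans (q2.trans t3.symm)
    · exact mul_left_cancel₀ hT2.ne' (show 2 * T * P j 3 = 2 * T * p 3 by linarith [P3 j])
    · exact (Pn j 4 (by decide)).trans
        (mul_left_cancel₀ hT2.ne' (show 2 * T * p₀ 4 = 2 * T * p 4 by linarith))
    · exact (Pn j 5 (by decide)).trans
        (mul_left_cancel₀ hT2.ne' (show 2 * T * p₀ 5 = 2 * T * p 5 by linarith))
  obtain ⟨B, hBi, hB⟩ := param_deriv h1 h2 hT0 δ ⟨q0, q1, q2, q3⟩
  have x0 : aa z₀ T δ 0 p₀ 0 = z₀ := aa_half_CSt z₀ T δ ⟨q0, q1, q2, q3⟩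
  have y5 : 2 * T * p₀ 4 + δ + 2 * T * p₀ 5 = β₀ := by linarith
  have x1 : aa z₀ T δ 0 p₀ 1 = Real.exp α₀ • z₀ := by rw [aa_one_CSt, x0, q4]
  have x2 : aa z₀ T δ 0 p₀ 2 = Real.exp β₀ • z₀ := by rw [aa_two_CSt, x0, y5]
  let N : ℂ × ℝ × ℂ × ℝ →L[ℝ] ℂ × ℝ × ℂ × ℝ := (ContinuousLinearMap.id ℝ ℂ).prodMap
    ((ContinuousLinearMap.id ℝ ℝ).prodMap (-ContinuousLinearMap.id ℝ (ℂ × ℝ)))
  have hN : ∀ e, N e = (e.1, e.2.1, -e.2.2) := fun _ => rfl
  have hNi : Function.Injective N := fun a b h => by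
    simp only [hN, Prod.mk.injEq, neg_inj] at h
    exact Prod.ext h.1 (Prod.ext h.2.1 h.2.2)
  have hΦ : HasFDerivAt (fun p => PsiI fun i => f (aa z₀ T δ 0 p i)) (N.comp (L.comp B)) p₀ := by
    have hL' : HasFDerivAt (Phi f) L
        (aa z₀ T δ 0 p₀ 0, 2 * T * p₀ 4, 2 * T * p₀ 4 + δ + 2 * T * p₀ 5) := by
      rwa [x0, y5, q4]
    refine (N.hasFDerivAt.comp p₀ (hL'.comp p₀ hB)).congr_of_eventuallyEq
      (Eventually.of_forall fun p => ?_)
    simp only [PsiI, Function.comp, hN, Phi, aa_one_CSt, aa_two_CSt, Prod.neg_mk, neg_sub, det2,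
      Prod.mk.injEq, true_and, and_true]
    ring
  have n1 : nsq (f (Real.exp β₀ • z₀)) = nsq (f z₀) := by
    rw [e₁, nsq_smul, norm_ee, one_pow, one_mul]
  have n2 : nsq (f (Real.exp β₀ • z₀)) = nsq (f (Real.exp α₀ • z₀)) := by
    rw [e₂, nsq_smul, norm_ee, one_pow, one_mul]
  have hdet : ∀ (c : ℂ) (x : W), det2 x (c • x) = 0 := fun c x => by
    rw [← one_smul ℂ x, smul_smul, det2_smul, det2_self, mul_zero]
  have hΦ0 : (PsiI fun i => f (aa z₀ T δ 0 p₀ i)) = 0 := by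
    simp only [PsiI, x0, x1, x2, Prod.mk_eq_zero]
    exact ⟨by rw [e₁, hdet], sub_eq_zero.2 n1, by rw [e₂, hdet], sub_eq_zero.2 n2⟩
  obtain ⟨b1, b2⟩ := bounds_CSt hf hz₀ hα.le hβ n1.le n2.le
  have hsh : ∀ i, 1 / 100 < nsq (f (aa z₀ T δ 0 p₀ i)) ∧ nsq (f (aa z₀ T δ 0 p₀ i)) < 1000 := by
    intro i
    fin_cases i
    · exact (show 1 / 100 < nsq (f (aa z₀ T δ 0 p₀ 0)) ∧ nsq (f (aa z₀ T δ 0 p₀ 0)) < 1000 by
        rw [x0]; exact ⟨b1, by linarith⟩)
    · exact (show 1 / 100 < nsq (f (aa z₀ T δ 0 p₀ 1)) ∧ nsq (f (aa z₀ T δ 0 p₀ 1)) < 1000 by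
        rw [x1]; exact ⟨by linarith, by linarith⟩)
    · exact (show 1 / 100 < nsq (f (aa z₀ T δ 0 p₀ 2)) ∧ nsq (f (aa z₀ T δ 0 p₀ 2)) < 1000 by
        rw [x2]; exact ⟨by linarith, b2⟩)
  have hAi : Function.Injective (N.comp (L.comp B)) := hNi.comp (hLi.comp hBi)
  generalize N.comp (L.comp B) = A at hΦ hAi
  obtain ⟨s, hs, hM⟩ := ldeg_th6 A hAi
  refine ⟨s, hs, ?_⟩
  have hcard : (S.image P).card = S.card := Finset.card_image_of_injective _ fun j j' h => by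
    have := P3 j
    rw [h, P3] at this
    exact_mod_cast (show (j : ℝ) = j' by linarith)
  have e2 : ∀ k ∈ (Finset.univ : Finset Zp).erase 0, ∀ᶠ M in atTop,
      II M 6 (pb (res 6) (omI c g z₀ T δ k)) = 0 := fun k hk =>
    II_lz _ fun q hq => (hlz k _ (res_mem_cubeF 6 hq)
      (Or.inl (Finset.ne_of_mem_erase hk))).pb (tendsto_res 6 q)
  have e3 := local_sum (c := omI c g z₀ T δ 0) ((yI_dg c).pb _) (S.image P)
    (fun x hx h => hlz 0 x hx (Or.inr h)) s fun z hz c' d1 d2 d3 => ?_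
  · filter_upwards [(Finset.eventually_all _).2 e2, e3] with M a2 a3
    rw [← Finset.add_sum_erase _ _ (Finset.mem_univ (0 : Zp)), Finset.sum_eq_zero a2, add_zero,
      a3, hcard]
  obtain ⟨j, hj, rfl⟩ := Finset.mem_image.1 hz
  have u1 : ∀ p i, aa z₀ T δ 0 p i =
      Real.exp (6 * j) • aa z₀ T δ 0 (p - Pi.single 3 (6 * j / (2 * T))) i := fun p i => by
    rw [← hx6 j, ← aa_add_I, hx6, sub_add_cancel]
  have u2 : P j - Pi.single 3 (6 * j / (2 * T)) = p₀ := by rw [hP, add_sub_cancel_right]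
  have u3 : ∀ᶠ p in 𝓝 (P j), ∀ i, g (aa z₀ T δ 0 p i) =
      Real.exp (6 * j) • f (aa z₀ T δ 0 (p - Pi.single 3 (6 * j / (2 * T))) i) := by
    refine eventually_all.2 fun i => ?_
    have o : Sh j (aa z₀ T δ 0 (P j) i) := by
      rw [Sh, u1, exp_neg_smul_I, u2]
      exact (hf.sh _).1 (hsh i)
    filter_upwards [((continuous_aa T δ 0 i).tendsto (P j)).eventually ((isOpen_Sh j).mem_nhds o)]
      with p hp
    rw [hg.inn j hj _ hp, u1 p, exp_neg_smul_I]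
  have u4 : ∀ i, g (aa z₀ T δ 0 (P j) i) = Real.exp (6 * j) • f (aa z₀ T δ 0 p₀ i) := fun i => by
    rw [u3.self_of_nhds, u2]
  have u5 : ∀ i, Sh j (g (aa z₀ T δ 0 (P j) i)) := fun i => by
    rw [Sh, u4, exp_neg_smul_I]
    exact hsh i
  have hΦj : HasFDerivAt (fun p => PsiI fun i => g (aa z₀ T δ 0 p i))
      (Real.exp (6 * j) ^ 2 • A) (P j) := by
    rw [← u2] at hΦ
    refine (((hasFDerivAt_comp_sub _).2 hΦ).const_smul
      (Real.exp (6 * j) ^ 2)).congr_of_eventuallyEq (u3.mono fun p hp => ?_)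
    simp only [hp, PsiI_smul, Pi.smul_apply]
  have hΦj0 : (PsiI fun i => g (aa z₀ T δ 0 (P j) i)) = 0 := by
    simp only [u4, PsiI_smul, hΦ0, smul_zero]
  have hnr := (yI_near c (x := fun i => g (aa z₀ T δ 0 (P j) i)) (by linarith [(u5 0).low])
    (by linarith [(u5 2).high (hn j hj)]) (hg0 _ (aa_ne_zero h1 h2 T δ 0 _ 1)) hD₁ hD₂
    (by simp only [u4, x0, x2]; rw [e₁, smul_comm])
    (by simp only [u4, x1, x2]; rw [e₂, smul_comm])).pb ((hX 0).tendsto (P j))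
  have hb : (fun p => (fun i => g (aa z₀ T δ 0 p i), bb 0 p)) =ᶠ[𝓝 (P j)]
      fun p => (fun i => g (aa z₀ T δ 0 p i), (0 : Zp)) := by
    have k : ∀ i, ∀ᶠ p : Fin 6 → ℝ in 𝓝 (P j), p i ≠ 1 := fun i =>
      (continuous_apply i).continuousAt.eventually_ne (hp₀ j hj i).2.ne
    filter_upwards [k 0, k 1] with p a b
    rw [bb, if_neg a, if_neg b]
  have hcz : LZ (c' - pb (fun p => PsiI fun i => g (aa z₀ T δ 0 p i)) th6) (𝓝 (P j)) := by
    have := d2.add ((LZ.pb_congr (yI c) hb).add hnr)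
    rw [← sub_add_sub_cancel _ (omI c g z₀ T δ 0),
      ← sub_add_sub_cancel (omI c g z₀ T δ 0)
        (pb (fun p => (fun i => g (aa z₀ T δ 0 p i), (0 : Zp))) (yI c))]
    exact this
  have hr : 0 < Real.exp (6 * j) ^ 2 := by positivity
  have hA0 : ∀ y, y ≠ 0 → A y ≠ 0 := fun y hy h => hy (hAi (h.trans (map_zero A).symm))
  have hloc := local_deg thom_th6 d1 (hp₀ j hj) (fun x hx => ?_) d3 hΦj
    (Eventually.of_forall fun x => (continuous_PsiI.comp (hX 0)).continuousAt) hΦj0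
    ((injective_iff_map_eq_zero _).2 fun y hy => by
      by_contra h
      exact smul_ne_zero hr.ne' (hA0 y h) hy) hcz
  · have hpath := ldeg_path thom_th6 (fun u y => ((1 - u) + u * Real.exp (6 * j) ^ 2) • A y)
      (by unfold Function.uncurry; fun_prop) fun u hu y hy => smul_ne_zero
        (by nlinarith [hu.1, hu.2, mul_nonneg hu.1 hr.le, mul_pos hr hr])
        (hA0 y fun h => by rw [h, norm_zero] at hy; norm_num at hy)
    filter_upwards [hloc, hM, hpath] with M a b d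
    simp only [sub_zero, zero_mul, add_zero, one_smul, sub_self, one_mul, zero_add] at d
    exact a.trans (d.symm.trans b)
  · rcases eq_or_ne x (P j) with rfl | h
    · have := hcz.dd (6 + 1)
      rw [dd_sub, ← pb_dd, thom_th6.closed] at this
      exact (this.of_sub (LZ.zero _)).mono nhdsWithin_le_nhds
    · exact (d3 x hx h).dd _

/-- A nonempty stack is not joined to a linear map by an equivariant family. -/
theorem core_I {f g : W → W} (hf : Sol f) {S : Finset ℕ} (hg : Stack f g S) (hS : S.Nonempty)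
    (L : EqFam g) : False := by
  obtain ⟨z₀, h1, h2, T₁, δ₁, hT₁, hδ₁, Hs⟩ := start_I hf hg (n := S.sup id)
    fun j hj => Finset.le_sup (f := id) hj
  obtain ⟨T₀, HT⟩ := stokes_I _ L (Real.exp_pos (-(6 * ((S.sup id : ℕ) : ℝ)))) h1 h2
  obtain ⟨δ₀, hδ₀, Hn⟩ := HT (max T₀ T₁) (le_max_left _ _) (hT₁.le.trans (le_max_right _ _))
  obtain ⟨s, hs, Hv⟩ := Hs (max T₀ T₁) (min δ₀ δ₁) (le_max_right _ _) (lt_min hδ₀ hδ₁)
    (min_le_right _ _)
  obtain ⟨M, a, b⟩ := (Hv.and (Hn _ (lt_min hδ₀ hδ₁) (min_le_left _ _))).exists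
  have h3 := hS.card_pos
  rw [b] at a
  rcases hs with rfl | rfl <;> omega

end Pool.Agent.MP_2fc7fa_gt.N
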