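import Pool.Agent.Mg.F2fc7fa.Gf55e0a

/-! An integral count for equivariant families: the Stokes argument. -/

open scoped ComplexConjugate Topology
open Set Complex Filter

noncomputable section

namespace Pool.Agent.MP_2fc7fa_gt.N

/-- An equivariant family of maps of the punctured affine chart, from `f` to a linear map. -/
structure EqFam (f : W → W) where
  h : ℝ → W → W
  ne : ∀ s ∈ Icc (0 : ℝ) 1, ∀ v, v ≠ 0 → h s v ≠ 0
  cont : ContinuousOn (fun q : ℝ × W => h q.1 q.2) (Icc 0 1 ×ˢ {0}ᶜ)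
  inj : ∀ s ∈ Icc (0 : ℝ) 1, ∀ v (c c' : ℂ), v ≠ 0 → c ≠ 0 → c' ≠ 0 →
    h s (c • v) = h s (c' • v) → c = c'
  equiv : ∀ s ∈ Icc (0 : ℝ) 1, ∀ v k, v ≠ 0 → h s (rt k • v) = rt k • h s v
  start : ∀ v, v ≠ 0 → h 0 v = f v
  stop : ∃ L : W →ₗ[ℂ] W, ∀ v, v ≠ 0 → h 1 v = L v
  near0 : ∀ r : ℝ, 0 < r → ∃ τ : ℝ, 0 < τ ∧ ∀ s ∈ Icc (0 : ℝ) 1, ∀ a (l : ℝ), a ≠ 0 → ‖a‖ ≤ τ →
    1 < l → ‖h s a‖ ≤ r ∧ ∀ μ, Chord μ → h s ((l : ℂ) • a) ≠ μ • h s a
  nearInf : ∀ r : ℝ, ∃ R : ℝ, ∀ s ∈ Icc (0 : ℝ) 1, ∀ b (l : ℝ), b ≠ 0 → R ≤ ‖b‖ → 0 < l → l < 1 →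
    r ≤ ‖h s b‖ ∧ ∀ μ, Chord μ → h s b ≠ μ • h s ((l : ℂ) • b)

/-- The outer cut-off at another scale. -/
def kc (c : ℝ) (e : W × W) : ℝ := k2 (c • e)

theorem kc_mem (c : ℝ) (e : W × W) : kc c e ∈ Icc (0 : ℝ) 1 := k2_mem _

theorem continuous_kc (c : ℝ) : Continuous (kc c) := continuous_k2.comp (continuous_const_smul c)

theorem kc_zero {c : ℝ} (hc : 0 < c) {e : W × W} (h : 200 / c ≤ ‖e.2‖) : kc c e = 0 :=
  k2_zero (by
    rw [Prod.smul_snd, norm_smul, Real.norm_of_nonneg hc.le]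
    rwa [div_le_iff₀' hc] at h)

theorem kc_one {c : ℝ} {e : W × W} (h : nsq (c • e.2) ≤ 10000) : kc c e = 1 := k2_one h

theorem kc_rt (c : ℝ) (k : Zp) (e : W × W) : kc c (rt k • e) = kc c e := by
  rw [kc, kc, smul_comm, k2_rt]

/-- The cochain of degree six on triples. -/
def yI (c : ℝ) : Co ((Fin 3 → W) × Zp) ℤ :=
  cup 3 (pb (fun e => ((e.1 0, e.1 2), e.2)) (yy k1 (-3)))
    (pb (fun e => ((e.1 1, e.1 2), e.2)) (yy (kc c) 6))

variable (c : ℝ)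

theorem yI_dg : Dg 6 (yI c) :=
  ((yy_dg _ _).pb _).cup ((yy_dg _ _).pb _)

theorem yI_nm : Nm 6 (yI c) :=
  ((yy_nm _ _).pb _).cup ((yy_nm _ _).pb _)

theorem yI_inv (k : Zp) :
    pb (fun e : (Fin 3 → W) × Zp => (fun i => rt k • e.1 i, e.2 + k)) (yI c) = yI c := by
  funext x
  exact congrArg₂ (· * ·)
    (congrFun (yy_inv k1_rt (-3) k) fun j => (((x j).1 0, (x j).1 2), (x j).2))
    (congrFun (yy_inv (kc_rt c) 6 k) fun j =>
      (((shift 3 x j).1 1, (shift 3 x j).1 2), (shift 3 x j).2))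

theorem yI_lz {x : Fin 3 → W} (hx : ∀ i, x i ≠ 0)
    (h : ¬ (CC k1 (-3) (x 0, x 2) ∧ CC (kc c) 6 (x 1, x 2))) :
    LZ (yI c) (comap Prod.fst (𝓝 x)) := by
  rcases not_and_or.1 h with h | h
  · exact ((yy_lz continuous_k1 (hx 0) h).pb (tend_CPair' x 0)).cup_left _ _
  · exact ((yy_lz (continuous_kc c) (hx 1) h).pb (tend_CPair' x 1)).cup_right _ _

theorem yI_dd {x : Fin 3 → W} (hx : ∀ i, x i ≠ 0)
    (h : ∀ k, x 2 ≠ rt k • x 0 ∧ x 2 ≠ rt k • x 1) :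
    LZ (dd 7 (yI c)) (comap Prod.fst (𝓝 x)) := by
  refine LZ.dd_cup (n := 3) (m := 3) ((yy_dg _ _).pb _) ?_ ?_
  · rw [← pb_dd]
    exact (yy_dd continuous_k1 k1_mem (e := (x 0, x 2)) (hx 0) fun k => (h k).1).pb
      (tend_CPair' x 0)
  · rw [← pb_dd]
    exact (yy_dd (continuous_kc c) (kc_mem c) (e := (x 1, x 2)) (hx 1) fun k => (h k).2).pb
      (tend_CPair' x 1)

theorem yI_near {x : Fin 3 → W} (h0 : 1 / 5000 < nsq (x 0)) (h2 : nsq (c • x 2) < 10000)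
    (h1 : x 1 ≠ 0) {D₁ D₂ : ℝ} (hD₁ : D₁ ∈ Ioo (-3 : ℝ) (-2)) (hD₂ : D₂ ∈ Ioo (6 : ℝ) 7)
    (e₁ : x 2 = ee D₁ • x 0) (e₂ : x 2 = ee D₂ • x 1) :
    LZ (pb (fun x' => (x', 0)) (yI c) - pb (fun x' : Fin 3 → W =>
      (det2 (x' 0) (x' 2), nsq (x' 2) - nsq (x' 0), det2 (x' 1) (x' 2), nsq (x' 2) - nsq (x' 1)))
      th6) (𝓝 x) := by
  have hx0 : x 0 ≠ 0 := by
    intro h
    rw [h] at h0
    simp only [nsq, Prod.fst_zero, Prod.snd_zero, norm_zero] at h0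
    norm_num at h0
  have c1 : ∀ᶠ e' in 𝓝 (x 0, x 2), k1 e' = 1 := by
    filter_upwards [((continuous_nsq.comp continuous_fst).tendsto (x 0, x 2)).eventually
      (lt_mem_nhds h0)] with e' he'
    exact k1_one he'.le
  have c2 : ∀ᶠ e' in 𝓝 (x 1, x 2), kc c e' = 1 := by
    filter_upwards [((continuous_nsq.comp ((continuous_const_smul c).comp continuous_snd)).tendsto
      (x 1, x 2)).eventually (gt_mem_nhds h2)] with e' he'
    exact k2_one he'.le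
  have a1 := (yy_near (m := -3) (e := (x 0, x 2)) hx0 (D := D₁)
    ⟨by simpa using hD₁.1, by push_cast; linarith [hD₁.2]⟩ e₁ c1).pb (tend_CPair x 0)
  have a2 := (yy_near (m := 6) (e := (x 1, x 2)) h1 (D := D₂)
    ⟨by simpa using hD₂.1, by push_cast; linarith [hD₂.2]⟩ e₂ c2).pb (tend_CPair x 1)
  exact LZ.cup_sub (a := pb (fun x' : Fin 3 → W => ((x' 0, x' 2), (0 : Zp))) (yy k1 (-3)))
    (a' := pb (fun x' : Fin 3 → W => (det2 (x' 0) (x' 2), nsq (x' 2) - nsq (x' 0))) th3)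
    (b := pb (fun x' : Fin 3 → W => ((x' 1, x' 2), (0 : Zp))) (yy (kc c) 6))
    (b' := pb (fun x' : Fin 3 → W => (det2 (x' 1) (x' 2), nsq (x' 2) - nsq (x' 1))) th3) a1 a2 3

/-- The cochain on the six-dimensional cube at time `0`. -/
def omI (g : W → W) (z₀ : W) (T δ : ℝ) (k : Zp) : Co (Fin 6 → ℝ) ℤ :=
  pb (fun p => (fun i => g (aa z₀ T δ k p i), bb k p)) (yI c)

variable {g : W → W} (L : EqFam g) {z₀ : W}

/-- The map from the seven-dimensional cube to the data space. -/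
def PsI (z₀ : W) (T δ : ℝ) (k : Zp) (q : Pt) : (Fin 3 → W) × Zp :=
  (fun i => L.h (q 0) (aa z₀ T δ k (res 6 (shift 1 q)) i), bb k (res 6 (shift 1 q)))

theorem PsI_tendsto (h1 : z₀.1 ≠ 0) (h2 : z₀.2 ≠ 0) (T δ : ℝ) (k : Zp) {q : Pt} (hq : q ∈ cube) :
    Tendsto (PsI L z₀ T δ k) (𝓝[cube] q) (comap Prod.fst (𝓝 (PsI L z₀ T δ k q).1)) := by
  rw [tendsto_comap_iff]
  refine tendsto_pi_nhds.2 fun i => ?_
  have hc : Continuous fun q : Pt => (q 0, aa z₀ T δ k (res 6 (shift 1 q)) i) :=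
    (continuous_apply 0).prodMk ((continuous_aa (z₀ := z₀) T δ k i).comp
      ((continuous_res 6).comp (continuous_shift 1)))
  exact (L.cont.comp (s := cube) hc.continuousOn
    fun q hq => ⟨hq 0, aa_ne_zero h1 h2 T δ k _ i⟩) q hq

theorem PsI_rg (h1 : z₀.1 ≠ 0) (h2 : z₀.2 ≠ 0) {T δ : ℝ} (hT : 0 ≤ T) (hδ : 0 < δ) (k : Zp)
    {q : Pt} (hq : q ∈ cube) (l : Zp) :
    (PsI L z₀ T δ k q).1 2 ≠ rt l • (PsI L z₀ T δ k q).1 0 ∧
      (PsI L z₀ T δ k q).1 2 ≠ rt l • (PsI L z₀ T δ k q).1 1 := by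
  have ha := aa_ne_zero h1 h2 T δ k (res 6 (shift 1 q))
  obtain ⟨-, l1, l2⟩ := hh_lt_CHit hT hδ (res_mem_cubeF 6 (shift_mem_cube 1 hq))
  have key : ∀ i : Fin 3, hh T δ (res 6 (shift 1 q)) i < hh T δ (res 6 (shift 1 q)) 2 →
      (PsI L z₀ T δ k q).1 2 ≠ rt l • (PsI L z₀ T δ k q).1 i := by
    intro i hi h
    simp only [PsI] at h
    rw [← aa_shift_CHit T δ k _ i 2, ← L.equiv _ (hq 0) _ _ (ha i)] at h
    have h3 := congrArg norm (L.inj _ (hq 0) _ _ _ (ha i)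
      (ofReal_ne_zero.2 (Real.exp_ne_zero _)) (rt_ne_zero l) h)
    rw [norm_rt, Complex.norm_real, Real.norm_of_nonneg (Real.exp_pos _).le,
      Real.exp_eq_one_iff] at h3
    linarith
  exact ⟨key 0 (l1.trans_lt l2), key 1 l2⟩

theorem no_close_I (r R : ℝ) (hr : 0 < r) : ∃ δ₀ : ℝ, 0 < δ₀ ∧ ∀ δ : ℝ, 0 < δ → δ ≤ δ₀ →
    ∀ s ∈ Icc (0 : ℝ) 1, ∀ a : W, r ≤ ‖a‖ → ‖a‖ ≤ R →
      ¬ CC (kc c) 6 (L.h s a, L.h s (Real.exp δ • a)) := by
  set K : Set (ℝ × W) := Icc 0 1 ×ˢ (Metric.closedBall 0 R ∩ {a | r ≤ ‖a‖}) with hK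
  have cK : IsCompact K := isCompact_Icc.prod
    ((isCompact_closedBall _ _).inter_right (isClosed_le continuous_const continuous_norm))
  have hne : ∀ w ∈ K, w.2 ≠ 0 := fun w hw => norm_pos_iff.1 (hr.trans_le hw.2.2)
  have key : ∀ᶠ δ in 𝓝 (0 : ℝ), ∀ w ∈ K, w ∈ K →
      ¬ CC (kc c) 6 (L.h w.1 w.2, L.h w.1 (Real.exp δ • w.2)) := by
    refine cK.eventually_forall_of_forall_eventually fun w hw => ?_
    have cont : ∀ e : ℝ → ℝ, Continuous e → (∀ δ, e δ ≠ 0) →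
        ContinuousWithinAt (fun z : ℝ × ℝ × W => L.h z.2.1 (e z.1 • z.2.2))
          {z | z.2 ∈ K} (0, w) := fun e he he0 =>
      (L.cont.comp (f := fun z : ℝ × ℝ × W => (z.2.1, e z.1 • z.2.2))
        (Continuous.continuousOn (by fun_prop))
        fun z hz => ⟨hz.1, smul_ne_zero (he0 _) (hne _ hz)⟩) (0, w) hw
    have t1 := (cont (fun _ => 1) continuous_const fun _ => one_ne_zero).tendsto
    have t2 := (cont Real.exp Real.continuous_exp Real.exp_ne_zero).tendsto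
    simp only [Real.exp_zero, one_smul] at t1 t2
    exact (eventually_nhdsWithin_iff (s := {z : ℝ × ℝ × W | z.2 ∈ K})).1
      ((t1.prodMk_nhds t2).eventually (CC_diag (kc c) (L.ne _ hw.1 _ (hne w hw))))
  obtain ⟨ε, hε, h⟩ := Metric.nhds_basis_closedBall.eventually_iff.1 key
  refine ⟨ε, hε, fun δ h0 h1 s hs a ha ha' => ?_⟩
  have hw : (s, a) ∈ K := ⟨hs, mem_closedBall_zero_iff.2 ha', ha⟩
  exact h (mem_closedBall_zero_iff.2 (by rwa [Real.norm_of_nonneg h0.le])) _ hw hw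

theorem no_hit_I (hc : 0 < c) (h1 : z₀.1 ≠ 0) (h2 : z₀.2 ≠ 0) : ∃ T₀ : ℝ, ∀ T, T₀ ≤ T →
    ∃ δ₀ : ℝ, 0 < δ₀ ∧ ∀ δ : ℝ, 0 < δ → δ ≤ δ₀ → ∀ k : Zp, ∀ q ∈ cube,
      (q 0 = 1 ∨ q 4 = 0 ∨ q 4 = 1 ∨ q 5 = 0 ∨ q 5 = 1 ∨ q 6 = 0 ∨ q 6 = 1) →
      ¬ (CC k1 (-3) ((PsI L z₀ T δ k q).1 0, (PsI L z₀ T δ k q).1 2) ∧
        CC (kc c) 6 ((PsI L z₀ T δ k q).1 1, (PsI L z₀ T δ k q).1 2)) := by
  obtain ⟨τ, hτ, n0⟩ := L.near0 (1 / 200) (by norm_num)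
  obtain ⟨R, nI⟩ := L.nearInf (200 / c)
  have hm : 0 < min ‖z₀.1‖ ‖z₀.2‖ := lt_min (norm_pos_iff.2 h1) (norm_pos_iff.2 h2)
  have e1 : ∀ᶠ T in atTop, Real.exp (-T) * (2 * ‖z₀‖) ≤ τ :=
    (Real.tendsto_exp_neg_atTop_nhds_zero.mul_const _).eventually_le_const (by simpa using hτ)
  have e2 : ∀ᶠ T in atTop, R ≤ Real.exp T * min ‖z₀.1‖ ‖z₀.2‖ :=
    (Real.tendsto_exp_atTop.atTop_mul_const hm).eventually_ge_atTop R
  obtain ⟨T₀, hT₀⟩ := eventually_atTop.1 (e1.and (e2.and (eventually_ge_atTop 0)))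
  refine ⟨T₀, fun T hT => ?_⟩
  obtain ⟨a1, a2, hT0⟩ := hT₀ T hT
  obtain ⟨δ₀, hδ₀, nc⟩ := no_close_I c L (Real.exp (-T) * min ‖z₀.1‖ ‖z₀.2‖)
    (Real.exp T * (2 * ‖z₀‖)) (by positivity)
  refine ⟨δ₀, hδ₀, fun δ hδ hδ' k q hq hb => ?_⟩
  rintro ⟨c1, c2⟩
  have hs := hq 0
  have hp := res_mem_cubeF 6 (shift_mem_cube 1 hq)
  have p3 : res 6 (shift 1 q) 3 = q 4 := rfl
  have p4 : res 6 (shift 1 q) 4 = q 5 := rfl
  have p5 : res 6 (shift 1 q) 5 = q 6 := rfl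
  simp only [PsI] at c1 c2
  generalize res 6 (shift 1 q) = p at *
  have ha := aa_ne_zero h1 h2 T δ k p
  obtain ⟨l0, l1, l2⟩ := hh_lt_CHit hT0 hδ hp
  obtain ⟨v1, v2⟩ := norm_vv_CHit (z₀ := z₀) k (hp 0)
  have g0 : hh T δ p 0 = -T + 2 * T * q 4 := by rw [← p3]; rfl
  have g1 : hh T δ p 1 = hh T δ p 0 + 2 * T * q 5 := by rw [← p4]; rfl
  have g2 : hh T δ p 2 = hh T δ p 1 + δ + 2 * T * q 6 := by rw [← p5]; rfl
  rcases le_or_gt T (hh T δ p 2) with hi | hi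
  · obtain ⟨b1, b2⟩ := nI _ hs _ _ (ha 2) (a2.trans (by rw [norm_aa_CHit]; gcongr))
      (Real.exp_pos _) (Real.exp_lt_one_iff.2 (sub_neg.2 l2))
    rw [aa_shift_CHit] at b2
    obtain ⟨μ, b3, b4⟩ := CC_chord (kc_zero hc b1) (Or.inr rfl) c2
    exact b2 μ b3 b4
  rcases hb with hb | hb | hb | hb | hb | hb | hb
  · obtain ⟨Li, hL⟩ := L.stop
    rw [hb, hL _ (ha 2), ← aa_shift_CHit T δ k p 0 2, map_smul, ← hL _ (ha 0)] at c1
    exact CC_real (Or.inl rfl) (L.ne _ ⟨zero_le_one, le_rfl⟩ _ (ha 0)) (Real.exp_pos _) c1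
  · obtain ⟨b1, b2⟩ := n0 _ hs _ _ (ha 0)
      (le_trans (by rw [norm_aa_CHit, g0, hb, mul_zero, add_zero]; gcongr) a1)
      (Real.one_lt_exp_iff.2 (sub_pos.2 (l1.trans_lt l2)))
    rw [aa_shift_CHit] at b2
    obtain ⟨μ, b3, b4⟩ := CC_chord (k1_zero b1) (Or.inl rfl) c1
    exact b2 μ b3 b4
  · rw [hb] at g0
    linarith
  · rw [hb, mul_zero, add_zero] at g1
    have b1 : aa z₀ T δ k p 1 = aa z₀ T δ k p 0 := by rw [aa, aa, g1]
    rw [b1] at c2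
    exact CC_disj (L.ne _ hs _ (ha 2)) c1 c2
  · rw [hb] at g1
    linarith
  · refine nc δ hδ hδ' _ hs (aa z₀ T δ k p 1) ?_ ?_ ?_
    · rw [norm_aa_CHit]
      gcongr
      linarith
    · rw [norm_aa_CHit]
      gcongr
      linarith
    · rwa [← aa_shift_CHit T δ k p 1 2, Complex.coe_smul, g2, hb, mul_zero, add_zero,
        add_sub_cancel_left] at c2
  · rw [hb] at g2
    linarith

theorem congr_I (M : ℕ) {φ ψ : Pt → (Fin 3 → W) × Zp} (h : ∀ q ∈ cube, φ q = ψ q) :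
    II M 6 (pb φ (yI c)) = II M 6 (pb ψ (yI c)) :=
  II_congr M _ fun _ hx => congrArg (yI c) (funext fun j => h _ (hx j))

theorem indep_I (M : ℕ) {φ : Pt → (Fin 3 → W) × Zp} {i : ℕ} (hi : i < 6)
    (h : ∀ q q' : Pt, (∀ j, j ≠ i → q j = q' j) → φ q = φ q') : II M 6 (pb φ (yI c)) = 0 :=
  II_indep M ((yI_nm c).pb φ) hi fun _ _ _ _ hxy =>
    congrArg (yI c) (funext fun a => h _ _ (hxy a))

theorem face_r_I (T δ : ℝ) (M : ℕ) (k : Zp) {a : ℝ} (ha : a = 0 ∨ a = 1) :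
    II M 6 (pb (ins 1 a) (pb (PsI L z₀ T δ k) (yI c))) = 0 := by
  rw [pb_pb]
  rcases ha with rfl | rfl
  · refine indep_I c M (i := 2) (by omega) fun q q' h => ?_
    have ea : ∀ i, aa z₀ T δ k (res 6 (shift 1 (ins 1 0 q))) i =
        aa z₀ T δ k (res 6 (shift 1 (ins 1 0 q'))) i := fun i => by
      rw [aa_CFace T δ (c := 1) (k' := k) (p' := res 6 (shift 1 (ins 1 0 q'))), one_smul] <;>
        simp [vv, res, shift, ins, h]
    simp only [PsI, ins0_CFace (i := 1) (by omega), ea, h 0 (by omega)]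
    simp [bb, res, shift, ins, h]
  · refine indep_I c M (i := 1) (by omega) fun q q' h => ?_
    have ea : ∀ i, aa z₀ T δ k (res 6 (shift 1 (ins 1 1 q))) i =
        aa z₀ T δ k (res 6 (shift 1 (ins 1 1 q'))) i := fun i => by
      rw [aa_CFace T δ (c := 1) (k' := k) (p' := res 6 (shift 1 (ins 1 1 q'))), one_smul] <;>
        simp [vv, res, shift, ins, h]
    simp only [PsI, ins0_CFace (i := 1) (by omega), ea, h 0 (by omega)]
    simp [bb, res, shift, ins, h]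

theorem face_th1_I (h1 : z₀.1 ≠ 0) (h2 : z₀.2 ≠ 0) (T δ : ℝ) (M : ℕ) (k : Zp) :
    II M 6 (pb (ins 2 1) (pb (PsI L z₀ T δ (k + 1)) (yI c))) =
      II M 6 (pb (ins 2 0) (pb (PsI L z₀ T δ k) (yI c))) := by
  conv_rhs => rw [← yI_inv c 1]
  rw [pb_pb, pb_pb, pb_pb]
  refine congr_I c M fun q hq => ?_
  have ea : ∀ i, aa z₀ T δ (k + 1) (res 6 (shift 1 (ins 2 1 q))) i =
      rt 1 • aa z₀ T δ k (res 6 (shift 1 (ins 2 0 q))) i := fun i => by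
    apply aa_CFace
    · have := ee_half_CFace
      refine Prod.ext ?_ ?_
      · simp only [vv, res, shift, ins, Prod.smul_fst, smul_eq_mul]
        simp only [Fin.val_one, Fin.val_zero, Nat.reduceAdd, lt_self_iff_false, if_false,
          if_true, this, Nat.reduceLT]
        ring
      · simp only [vv, res, shift, ins, Prod.smul_snd, smul_eq_mul, rt_add]
        simp
        ring
    all_goals simp [res, shift, ins]
  simp only [PsI, ins0_CFace (i := 2) (by omega), ea]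
  refine Prod.ext (funext fun i => L.equiv _ (hq 0) _ _ (aa_ne_zero h1 h2 T δ k _ i)) ?_
  simp only [bb, res, shift, ins]
  simp
  split_ifs <;> ring

theorem face_th2_I (T δ : ℝ) (M : ℕ) (k : Zp) :
    II M 6 (pb (ins 3 1) (pb (PsI L z₀ T δ k) (yI c))) =
      II M 6 (pb (ins 3 0) (pb (PsI L z₀ T δ (k + 1)) (yI c))) := by
  rw [pb_pb, pb_pb]
  refine congr_I c M fun q _ => ?_
  have ea : ∀ i, aa z₀ T δ k (res 6 (shift 1 (ins 3 1 q))) i =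
      aa z₀ T δ (k + 1) (res 6 (shift 1 (ins 3 0 q))) i := fun i => by
    rw [aa_CFace T δ (c := 1) (k' := k + 1) (p' := res 6 (shift 1 (ins 3 0 q))), one_smul]
    · have := ee_half_CFace
      rw [one_smul]
      refine Prod.ext ?_ ?_
      · simp [vv, res, shift, ins]
      · simp only [vv, res, shift, ins, rt_add]
        simp only [Fin.val_two, Fin.val_zero, Nat.reduceAdd, lt_self_iff_false, if_false,
          if_true, this, Nat.reduceLT]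
        ring
    all_goals simp [res, shift, ins]
  simp only [PsI, ins0_CFace (i := 3) (by omega), ea]
  refine Prod.ext rfl ?_
  simp [bb, res, shift, ins]

include L in
/-- The integral count vanishes for a map that is joined to a linear map by an equivariant
family. -/
theorem stokes_I (hc : 0 < c) (h1 : z₀.1 ≠ 0) (h2 : z₀.2 ≠ 0) : ∃ T₀ : ℝ, ∀ T, T₀ ≤ T → 0 ≤ T →
    ∃ δ₀ : ℝ, 0 < δ₀ ∧ ∀ δ : ℝ, 0 < δ → δ ≤ δ₀ →
      ∀ᶠ M in atTop, ∑ k : Zp, II M 6 (pb (res 6) (omI c g z₀ T δ k)) = 0 := by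
  obtain ⟨T₀, HT⟩ := no_hit_I c L hc h1 h2
  refine ⟨T₀, fun T hT Tpos => ?_⟩
  obtain ⟨δ₀, hδ₀, Hn⟩ := HT T hT
  refine ⟨δ₀, hδ₀, fun δ δpos hδ => ?_⟩
  replace Hn := Hn δ δpos hδ
  set C : Zp → Co Pt ℤ := fun k => pb (PsI L z₀ T δ k) (yI c) with hC
  have o : (1 : ℝ) ∈ Icc (0 : ℝ) 1 := ⟨zero_le_one, le_rfl⟩
  have z : (0 : ℝ) ∈ Icc (0 : ℝ) 1 := ⟨le_rfl, zero_le_one⟩
  have hne : ∀ k, ∀ q ∈ cube, ∀ i, (PsI L z₀ T δ k q).1 i ≠ 0 := fun k q hq i =>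
    L.ne _ (hq 0) _ (aa_ne_zero h1 h2 T δ k _ i)
  have face : ∀ k i a, a ∈ Icc (0 : ℝ) 1 → (∀ q : Pt, q i = a →
      q 0 = 1 ∨ q 4 = 0 ∨ q 4 = 1 ∨ q 5 = 0 ∨ q 5 = 1 ∨ q 6 = 0 ∨ q 6 = 1) →
      ∀ᶠ M in atTop, II M 6 (pb (ins i a) (C k)) = 0 := by
    intro k i a ha h
    refine II_lz _ fun q hq => LZ.pb ?_ (tendsto_ins i ha q)
    have hq' := ins_mem_cube i ha hq
    exact (yI_lz c (hne k _ hq') (Hn k _ hq' (h _ (by simp [ins])))).pb
      (PsI_tendsto L h1 h2 T δ k hq')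
  have b0 : ∀ k, ∀ᶠ M in atTop, II M (6 + 1) (dd (6 + 1) (C k)) = 0 := by
    intro k
    refine II_lz _ fun q hq => ?_
    rw [hC, ← pb_dd]
    exact (yI_dd c (hne k q hq) (PsI_rg L h1 h2 Tpos δpos k hq)).pb (PsI_tendsto L h1 h2 T δ k hq)
  filter_upwards [eventually_all.2 b0, eventually_gt_atTop 0,
    eventually_all.2 fun k => face k 0 1 o (by tauto),
    eventually_all.2 fun k => face k 4 0 z (by tauto),
    eventually_all.2 fun k => face k 4 1 o (by tauto),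
    eventually_all.2 fun k => face k 5 0 z (by tauto),
    eventually_all.2 fun k => face k 5 1 o (by tauto),
    eventually_all.2 fun k => face k 6 0 z (by tauto),
    eventually_all.2 fun k => face k 6 1 o (by tauto)]
    with M a0 hM a01 a40 a41 a50 a51 a60 a61
  have e0 : ∀ k, II M 6 (pb (ins 0 0) (C k)) = II M 6 (pb (res 6) (omI c g z₀ T δ k)) := by
    intro k
    rw [hC, omI, pb_pb, pb_pb]
    refine congr_I c M fun q _ => ?_
    rw [ins_zero]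
    exact Prod.ext (funext fun i => L.start _ (aa_ne_zero h1 h2 T δ k _ i)) rfl
  have st : ∀ k, (0 : ℤ) = -II M 6 (pb (res 6) (omI c g z₀ T δ k)) +
      (II M 6 (pb (ins 2 1) (C k)) - II M 6 (pb (ins 2 0) (C k))) -
      (II M 6 (pb (ins 3 1) (C k)) - II M 6 (pb (ins 3 0) (C k))) := by
    intro k
    have hdg : Dg 6 (C k) := (yI_dg c).pb _
    have r0 := face_r_I c L (z₀ := z₀) T δ M k (Or.inl rfl)
    have r1 := face_r_I c L (z₀ := z₀) T δ M k (Or.inr rfl)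
    rw [← a0 k, stokes hM _ hdg, ← e0]
    simp only [Finset.sum_range_succ, Finset.sum_range_zero, a01, a40, a41, a50, a51, a60, a61]
    simp only [hC, r0, r1]
    ring
  have s2 : ∑ k : Zp, II M 6 (pb (ins 2 1) (C k)) = ∑ k : Zp, II M 6 (pb (ins 2 0) (C k)) := by
    rw [← Equiv.sum_comp (Equiv.addRight 1)]
    exact Finset.sum_congr rfl fun k _ => face_th1_I c L h1 h2 T δ M k
  have s3 : ∑ k : Zp, II M 6 (pb (ins 3 1) (C k)) = ∑ k : Zp, II M 6 (pb (ins 3 0) (C k)) := by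
    rw [← Equiv.sum_comp (Equiv.addRight 1) fun k => II M 6 (pb (ins 3 0) (C k))]
    exact Finset.sum_congr rfl fun k _ => face_th2_I c L T δ M k
  have tot := Finset.sum_congr (rfl : (Finset.univ : Finset Zp) = _) fun k _ => st k
  simp only [Finset.sum_sub_distrib, Finset.sum_add_distrib, Finset.sum_neg_distrib, s2, s3,
    Finset.sum_const_zero] at tot
  linear_combination tot

end Pool.Agent.MP_2fc7fa_gt.N
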