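import Pool.Agent.MP_2fc7fa_gt.I.Glue
import Pool.Agent.MP_2fc7fa_gt.CDefs

/-! The space of invariant forms has infinitely many components. -/

open scoped ContDiff ComplexConjugate Topology Matrix
open Set Complex Filter Metric

noncomputable section

namespace Pool.Agent.MP_2fc7fa_gt.N

/-! ### Local path connectedness -/

theorem isForm_add_I {k : ℕ} {α β : Form k} (h : IsForm α) (h' : IsForm β) : IsForm (α + β) :=
  ⟨h.smooth.add h'.smooth, fun c hc z v => congrArg₂ (· + ·) (h.scale c hc z v) (h'.scale c hc z v),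
    fun z v i c e => (congrArg₂ (· + ·) (h.horiz z v i c e) (h'.horiz z v i c e)).trans
      (add_zero _), (congrArg₂ (· + ·) h.zero h'.zero).trans (add_zero _)⟩

theorem dAt_I {k : ℕ} {α : Form k} (h : IsForm α) {z : V} (hz : z ≠ 0) : DifferentiableAt ℝ α z :=
  (h.smooth.contDiffAt (isOpen_compl_singleton.mem_nhds hz)).differentiableAt (by simp)

/-- Nondegeneracy at a point. -/
def Nd (φ : V [⋀^Fin 2]→L[ℝ] ℝ) : Prop :=
  ∃ a b c d, φ ![a, b] * φ ![c, d] - φ ![a, c] * φ ![b, d] + φ ![a, d] * φ ![b, c] ≠ 0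

theorem isOpen_Nd : IsOpen {φ | Nd φ} := by
  simp only [Nd, ofPred_exists]
  refine isOpen_iUnion fun a => isOpen_iUnion fun b => isOpen_iUnion fun c =>
    isOpen_iUnion fun d => isOpen_ne_fun (by fun_prop) continuous_const

theorem nd_of_sphere {α : Form 2} (h : IsForm α) (h' : ∀ z ∈ sphere (0 : V) 1, Nd (α z)) (z : V)
    (hz : z ≠ 0) : Nd (α z) := by
  have hn : (‖z‖ : ℂ) ≠ 0 := ofReal_ne_zero.2 (norm_ne_zero_iff.2 hz)
  obtain ⟨a, b, c, d, e⟩ := h' ((‖z‖ : ℂ)⁻¹ • z) (by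
    rw [mem_sphere_zero_iff_norm, norm_smul, norm_inv, Complex.norm_real, norm_norm,
      inv_mul_cancel₀ (norm_ne_zero_iff.2 hz)])
  have key : ∀ u v, α z ![(‖z‖ : ℂ) • u, (‖z‖ : ℂ) • v] = α ((‖z‖ : ℂ)⁻¹ • z) ![u, v] := by
    intro u v
    rw [← h.scale _ hn _ ![u, v], smul_inv_smul₀ hn]
    congr 1
    ext1 i
    fin_cases i <;> rfl
  exact ⟨(‖z‖ : ℂ) • a, (‖z‖ : ℂ) • b, (‖z‖ : ℂ) • c, (‖z‖ : ℂ) • d, by simpa only [key] using e⟩

/-- A point of the segment between two forms. -/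
def segI {l : ℝ} (σ τ : Symp l) (t : ℝ)
    (h : ∀ z ∈ sphere (0 : V) 1, Nd ((1 - t) • σ.form z + t • τ.form z)) : Symp l where
  form := (1 - t) • σ.form + t • τ.form
  isForm := isForm_add_I (isForm_AStd σ.isForm _) (isForm_AStd τ.isForm _)
  closed := fun z hz => by
    rw [extDeriv_add (dAt_I (isForm_AStd σ.isForm _) hz) (dAt_I (isForm_AStd τ.isForm _) hz),
      extDeriv_smul, extDeriv_smul, σ.closed z hz, τ.closed z hz, smul_zero, smul_zero, add_zero]
  nondeg := nd_of_sphere (isForm_add_I (isForm_AStd σ.isForm _) (isForm_AStd τ.isForm _)) h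
  cls := by
    obtain ⟨α, h1, h2⟩ := σ.cls
    obtain ⟨β, h3, h4⟩ := τ.cls
    refine ⟨(1 - t) • α + t • β, isForm_add_I (isForm_AStd h1 _) (isForm_AStd h3 _),
      fun z hz => ?_⟩
    rw [extDeriv_add (dAt_I (isForm_AStd h1 _) hz) (dAt_I (isForm_AStd h3 _) hz),
      extDeriv_smul, extDeriv_smul, Pi.add_apply, Pi.smul_apply, Pi.smul_apply, h2 z hz, h4 z hz]
    module

theorem near_seg {l : ℝ} (σ : Symp l) : ∀ᶠ τ in 𝓝 σ, ∀ w ∈ Icc (0 : ℝ) 1 ×ˢ sphere (0 : V) 1,
    Nd ((1 - w.1) • σ.form w.2 + w.1 • τ.form w.2) := by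
  refine (isCompact_Icc.prod (isCompact_sphere _ _)).eventually_forall_of_forall_eventually
    fun w hw => ?_
  have hw0 : w.2 ≠ 0 := ne_zero_of_mem_unit_sphere ⟨w.2, hw.2⟩
  have hJ : ∀ τ : Symp l, ContinuousAt (fun q : Symp l × V => q.1.form q.2) (τ, w.2) := fun τ =>
    (continuous_symp_iff.1 continuous_id).jc.continuousAt
      ((isOpen_univ.prod isOpen_compl_singleton).mem_nhds ⟨mem_univ _, hw0⟩)
  have c1 : ContinuousAt (fun q : Symp l × ℝ × V => σ.form q.2.2) (σ, w) :=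
    ContinuousAt.comp (f := fun q : Symp l × ℝ × V => (σ, q.2.2)) (x := (σ, w))
      (g := fun q : Symp l × V => q.1.form q.2) (hJ σ) (by fun_prop)
  have c2 : ContinuousAt (fun q : Symp l × ℝ × V => q.1.form q.2.2) (σ, w) :=
    ContinuousAt.comp (f := fun q : Symp l × ℝ × V => (q.1, q.2.2)) (x := (σ, w))
      (g := fun q : Symp l × V => q.1.form q.2) (hJ σ) (by fun_prop)
  have c0 : ContinuousAt (fun q : Symp l × ℝ × V => q.2.1) (σ, w) := by fun_prop
  have c3 : ContinuousAt (fun q : Symp l × ℝ × V =>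
      (1 - q.2.1) • σ.form q.2.2 + q.2.1 • q.1.form q.2.2) (σ, w) :=
    ((continuousAt_const.sub c0).smul c1).add (c0.smul c2)
  refine c3.eventually (isOpen_Nd.mem_nhds ?_)
  change Nd ((1 - w.1) • σ.form w.2 + w.1 • σ.form w.2)
  rw [← add_smul, sub_add_cancel, one_smul]
  exact σ.nondeg _ hw0

theorem near_joined {l : ℝ} {G : Set (Matrix (Fin 3) (Fin 3) ℂ)}
    (σ : {σ : Symp l // Invariant G σ.form}) : ∀ᶠ τ in 𝓝 σ, Joined σ τ := by
  filter_upwards [continuous_subtype_val.continuousAt.eventually (near_seg σ.1)] with τ h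
  have hU : IsOpen ({0}ᶜ : Set V) := isOpen_compl_singleton
  refine ⟨⟨⟨fun t => ⟨segI σ.1 τ.1 t fun z hz => h (t, z) ⟨t.2, hz⟩, fun g hg z v => ?_⟩,
    Continuous.subtype_mk (continuous_symp_iff.2 ?_) _⟩, Subtype.ext (Symp.ext' fun x _ u v => ?_),
    Subtype.ext (Symp.ext' fun x _ u v => ?_)⟩⟩
  · exact congrArg₂ (fun a b : ℝ => (1 - (t : ℝ)) * a + t * b) (σ.2 g hg z v) (τ.2 g hg z v)
  · exact ((sm_const (c := fun t : UI => 1 - (t : ℝ)) (by fun_prop)).smul
      (sm_of_contDiffOn hU.uniqueDiffOn σ.1.isForm.smooth)).add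
      ((sm_const (c := fun t : UI => (t : ℝ)) (by fun_prop)).smul
        (sm_of_contDiffOn hU.uniqueDiffOn τ.1.isForm.smooth))
  · simp [segI]
  · simp [segI]

theorem joined_of_cc {X : Type} [TopologicalSpace X] (h : ∀ x : X, ∀ᶠ y in 𝓝 x, Joined x y)
    {x y : X} (hy : y ∈ connectedComponent x) : Joined x y := by
  have h1 : IsClopen {y | Joined x y} :=
    ⟨⟨isOpen_iff_mem_nhds.2 fun y hy => (h y).mono fun z hz hz' => hy (hz'.trans hz.symm)⟩,
      isOpen_iff_mem_nhds.2 fun y hy => (h y).mono fun z hz => Joined.trans hy hz⟩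
  exact h1.connectedComponent_subset (Joined.refl x) hy

/-! ### Invariant forms -/

/-- Invariance under the action of `ZMod 37`. -/
def InvF {l : ℝ} (σ : Symp l) : Prop :=
  ∀ k x, x ≠ 0 → ∀ u v, σ.form (hat k x) ![hat k u, hat k v] = σ.form x ![u, v]

theorem diag_mulVec_I (k : Zp) (x : V) : Matrix.diagonal ![1, rt k, rt k] *ᵥ x = hat k x := by
  ext i
  rw [Matrix.mulVec_diagonal]
  fin_cases i <;> simp [hat, wt, rt_zero]

theorem rt_pow_I (k : Zp) : rt k ^ 37 = 1 := by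
  rw [rt, ← AddChar.map_nsmul_eq_pow, nsmul_eq_mul,
    show ((37 : ℕ) : Zp) = 0 from ZMod.natCast_self 37, zero_mul, AddChar.map_zero_eq_one]

theorem exists_rt_I {ζ : ℂ} (h : ζ ^ 37 = 1) : ∃ k, ζ = rt k := by
  obtain ⟨i, -, hi⟩ := (Complex.isPrimitiveRoot_exp 37 (by norm_num)).eq_pow_of_pow_eq_one h
  refine ⟨((i : ℤ) : Zp), ?_⟩
  rw [rt_intCast, ← hi, ← Complex.exp_nat_mul, ee]
  congr 1
  push_cast
  ring

theorem invariant_iff {l : ℝ} (σ : Symp l) : Invariant Cyc37 σ.form ↔ InvF σ := by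
  constructor
  · intro h k x _ u v
    rw [← h _ ⟨rt k, rt_pow_I k, rfl⟩ x ![u, v], diag_mulVec_I]
    congr 1
    ext1 i
    fin_cases i <;> exact (diag_mulVec_I k _).symm
  · rintro h _ ⟨ζ, hζ, rfl⟩ z v
    obtain ⟨k, rfl⟩ := exists_rt_I hζ
    rcases eq_or_ne z 0 with rfl | hz
    · rw [Matrix.mulVec_zero, σ.isForm.zero]
      rfl
    · rw [eq_bilL, eq_bilL, bilL_apply, bilL_apply, ← h k z hz]
      simp only [diag_mulVec_I]

theorem IsPull.inv {F F' : V → V} (hF : HDiff F F') (he : ∀ k x, F (hat k x) = hat k (F x))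
    {σ τ : Symp 1} (h : IsPull F σ τ) (hσ : InvF σ) : InvF τ := by
  intro k x hx u v
  have e2 : ∀ u, fderiv ℝ F (hat k x) (hat k u) = hat k (fderiv ℝ F x u) :=
    hF.fderiv_comm ((hatL k).toLinearEquiv.restrictScalars ℝ).toContinuousLinearEquiv (he k) hx
  rw [h _ hx, h _ (hat_ne k hx), he, e2, e2, hσ k _ (hF.ne hx)]

theorem IsPull.comp {F F' G G' : V → V} (hF : HDiff F F') (hG : HDiff G G') {σ τ ρ : Symp 1}
    (h : IsPull F σ τ) (h' : IsPull G τ ρ) : IsPull (F ∘ G) σ ρ := by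
  intro x hx u v
  rw [h' x hx, h _ (hG.ne hx), fderiv_comp x (hF.dAt (hG.ne hx)) (hG.dAt hx)]
  rfl

theorem Lf.equiv' {f : W → W} {F F' : V → V} (h : Lf f F F') (k : Zp) (x : V) :
    F' (hat k x) = hat k (F' x) := by
  conv_lhs => rw [← h.right x, ← h.equiv, h.left]

/-- The standard form and its image under a nonempty stack are not joined by invariant forms. -/
theorem not_joined_I {f g : W → W} (hf : Sol f) {S : Finset ℕ} (hg : Stack f g S)
    (hS : S.Nonempty) {K K' : V → V} (hL : Lf g K K') {γ : UI → Symp 1} (hγ : Continuous γ)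
    (hinv : ∀ s, InvF (γ s)) (h1 : ∀ x, x ≠ 0 → ∀ u v, (γ 1).form x ![u, v] = omS (g1 x) x u v)
    (h0 : IsPull K' (γ 1) (γ 0)) : False := by
  obtain ⟨ac, om0, om1, hFo⟩ := formsS pullS stdFS g K K' hL
  obtain ⟨J, hJ⟩ := jFamS jInvS jAlgS jSmS gsS g K K' ac om0 om1 hL hFo
  have e1 : γ 1 = om1 := Symp.ext' fun x hx u v => by rw [h1 x hx, hFo.std x hx]
  have e0 : γ 0 = om0 := Symp.ext' fun x hx u v => by rw [h0 x hx, hFo.pull x hx, e1]
  obtain ⟨L⟩ := eqfam_I hL hJ hγ e0 e1 fun k s => Symp.ext' fun x hx u v => by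
    have a := hFo.spec k (γ s) _ (hat_ne (-k) hx) (hat (-k) u) (hat (-k) v)
    simp only [(hdiff_hat k).right] at a
    rw [a, hinv s (-k) x hx]
  exact core_I hf hg hS L

theorem infinite_cc (l : ℝ) (hl : l ≠ 0) :
    Infinite (ConnectedComponents {σ : Symp l // Invariant Cyc37 σ.form}) := by
  obtain ⟨f, f', hs, s1, s2, s3, s4⟩ := fS
  obtain ⟨F, F', hL⟩ := liftFS f f' hs s1 s2 s3 s4
  obtain ⟨om1, h1⟩ := stdFS
  have i1 : InvF om1 := fun k x hx u v => by rw [h1 _ hx, h1 _ (hat_ne k hx), omS_AForms]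
  choose P hP hP' using fun n => pullS _ _ (lf_gI hL 0 n).toHDiff
  choose Q hQ hQ' using fun n => pullS _ _ (lf_gI hL 0 n).toHDiff.symm
  have i2 : ∀ n, InvF (Q n om1) := fun n =>
    (hQ' n om1).inv (lf_gI hL 0 n).toHDiff.symm (lf_gI hL 0 n).equiv' i1
  let τ : ℕ → {σ : Symp l // Invariant Cyc37 σ.form} := fun n =>
    ⟨sc_AStd hl (mul_one l).symm (Q n om1), (invariant_iff _).2 fun k x hx u v =>
      congrArg (l * ·) (i2 n k x hx u v)⟩
  have key : ∀ m r, 0 < r → ¬ Joined (τ (m + r)) (τ m) := by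
    rintro m r hr ⟨γ⟩
    have hm := (lf_gI hL 0 m).toHDiff
    have back : ∀ n, sc_AStd (inv_ne_zero hl) (inv_mul_cancel₀ hl).symm (τ n).1 = Q n om1 :=
      fun n => Symp.ext' fun x _ u v => inv_mul_cancel_left₀ hl _
    have e1 : P m (Q m om1) = om1 := Symp.ext' fun x hx u v => by
      have := (hQ' m om1).comp hm.symm hm (hP' m _) x hx u v
      rwa [show GI' F' 0 m ∘ GI F 0 m = id from funext hm.left, fderiv_id] at this
    refine not_joined_I hs (stack_gI hs m r) ⟨m, Finset.mem_Ico.2 (by omega)⟩ (lf_gI hL m r)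
      (γ := fun s => P m (sc_AStd (inv_ne_zero hl) (inv_mul_cancel₀ hl).symm (γ s).1))
      ((hP m).comp ((cont_AStd _ _).comp (continuous_subtype_val.comp γ.continuous)))
      (fun s => (hP' m _).inv hm (lf_gI hL 0 m).equiv fun k x hx u v =>
        congrArg (l⁻¹ * ·) ((invariant_iff _).1 (γ s).2 k x hx u v)) ?_ ?_
    · simp only [γ.target, back, e1]
      exact h1
    · simp only [γ.target, γ.source, back, e1]
      have := (hQ' (m + r) om1).comp (lf_gI hL 0 (m + r)).toHDiff.symm hm (hP' m _)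
      rwa [GI'_add, Function.comp_assoc, show GI' F' 0 m ∘ GI F 0 m = id from funext hm.left,
        Function.comp_id] at this
  refine Infinite.of_injective (fun n => ConnectedComponents.mk (τ n)) fun m n h => ?_
  have h2 := joined_of_cc near_joined (ConnectedComponents.coe_eq_coe'.1 h)
  by_contra hne
  rcases lt_or_gt_of_ne hne with h3 | h3
  · obtain ⟨r, rfl⟩ := Nat.exists_eq_add_of_le h3.le
    exact key m r (by omega) h2
  · obtain ⟨r, rfl⟩ := Nat.exists_eq_add_of_le h3.le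
    exact key n r (by omega) h2.symm

end Pool.Agent.MP_2fc7fa_gt.N
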